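import Pool.Agent.H99.SQ.Defs

/-!
# Board sqf2, module TL: the large primes
-/

set_option autoImplicit false

open Finset Filter Topology
open Pool.Agent.H99.SQ

namespace Pool.Agent.H35.SQ.TL

/-- the numbers up to `x` divisible by the square of a number above `Y` -/
lemma card_bad (Y x : ℕ) (hY : 1 ≤ Y) (B : Finset ℕ)
    (hB : ∀ m ∈ B, 0 < m ∧ m ≤ x ∧ ∃ p, Y < p ∧ p ^ 2 ∣ m) : (B.card : ℝ) ≤ (x : ℝ) / Y := by
  classical
  have hsub : B ⊆ (Ioc Y x).biUnion fun p => {m ∈ Ioc 0 x | p ^ 2 ∣ m} := by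
    intro m hm
    obtain ⟨h0, hx, p, hp, hd⟩ := hB m hm
    have hle : p ^ 2 ≤ m := Nat.le_of_dvd h0 hd
    have hpp : p ≤ p ^ 2 := Nat.le_self_pow two_ne_zero p
    rw [mem_biUnion]
    exact ⟨p, mem_Ioc.mpr ⟨hp, by omega⟩, mem_filter.mpr ⟨mem_Ioc.mpr ⟨h0, hx⟩, hd⟩⟩
  by_cases hYx : Y ≤ x
  · have h1 : (B.card : ℝ) ≤ ∑ p ∈ Ioc Y x, (x : ℝ) * ((p : ℝ) ^ 2)⁻¹ := by
      have h2 : B.card ≤ ∑ p ∈ Ioc Y x, x / p ^ 2 := by
        refine (card_le_card hsub).trans (card_biUnion_le.trans ?_)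
        refine sum_le_sum fun p _ => ?_
        rw [Nat.Ioc_filter_dvd_card_eq_div]
      calc (B.card : ℝ) ≤ ((∑ p ∈ Ioc Y x, x / p ^ 2 : ℕ) : ℝ) := by exact_mod_cast h2
        _ = ∑ p ∈ Ioc Y x, ((x / p ^ 2 : ℕ) : ℝ) := by push_cast; rfl
        _ ≤ ∑ p ∈ Ioc Y x, (x : ℝ) * ((p : ℝ) ^ 2)⁻¹ := by
          refine sum_le_sum fun p _ => ?_
          refine Nat.cast_div_le.trans ?_
          push_cast
          rw [div_eq_mul_inv]
    rw [← mul_sum] at h1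
    have h3 := sum_Ioc_inv_sq_le_sub (α := ℝ) (show Y ≠ 0 by omega) hYx
    have hx0 : (0 : ℝ) ≤ x := Nat.cast_nonneg x
    have hxi : (0 : ℝ) ≤ (x : ℝ)⁻¹ := inv_nonneg.mpr hx0
    calc (B.card : ℝ) ≤ (x : ℝ) * ∑ p ∈ Ioc Y x, ((p : ℝ) ^ 2)⁻¹ := h1
      _ ≤ (x : ℝ) * (Y : ℝ)⁻¹ := mul_le_mul_of_nonneg_left (by linarith) hx0
      _ = (x : ℝ) / Y := by rw [div_eq_mul_inv]
  · have h0 : B = ∅ := by
      rw [Ioc_eq_empty (by omega), biUnion_empty] at hsub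
      exact subset_empty.mp hsub
    rw [h0, card_empty, Nat.cast_zero]
    positivity

theorem pf_TL : T_TL := by
  classical
  intro Y x A hY hx hA
  set B : Finset ℕ := A.image fun q => q.1 - 2 ^ q.2 with hBdef
  have hB : (B.card : ℝ) ≤ (x : ℝ) / Y := by
    refine card_bad Y x hY B ?_
    intro m hm
    rw [hBdef, mem_image] at hm
    obtain ⟨q, hq, rfl⟩ := hm
    obtain ⟨h1, h2, h3⟩ := hA q hq
    exact ⟨Nat.sub_pos_of_lt h2, (Nat.sub_le _ _).trans h1, h3⟩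
  have hinj : A.card ≤ (range (Nat.log 2 x + 1) ×ˢ B).card := by
    refine card_le_card_of_injOn (fun q => (q.2, q.1 - 2 ^ q.2)) ?_ ?_
    · intro q hq
      obtain ⟨h1, h2, h3⟩ := hA q hq
      rw [mem_coe, mem_product]
      refine ⟨?_, mem_image.mpr ⟨q, hq, rfl⟩⟩
      rw [mem_range]
      have := Nat.le_log_of_pow_le (b := 2) (x := q.2) (y := x) one_lt_two (by omega)
      exact Nat.lt_succ_of_le this
    · intro q hq q' hq' h
      obtain ⟨h1, h2, -⟩ := hA q hq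
      obtain ⟨h1', h2', -⟩ := hA q' hq'
      have e1 : q.2 = q'.2 := congrArg Prod.fst h
      have e2 : q.1 - 2 ^ q.2 = q'.1 - 2 ^ q'.2 := congrArg Prod.snd h
      have e3 : q.1 = q'.1 := by
        rw [e1] at e2 h2
        omega
      exact Prod.ext e3 e1
  rw [card_product, card_range] at hinj
  have h5 : (A.card : ℝ) ≤ ((Nat.log 2 x + 1 : ℕ) : ℝ) * B.card := by exact_mod_cast hinj
  push_cast at h5
  exact h5.trans (mul_le_mul_of_nonneg_left hB (by positivity))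

end Pool.Agent.H35.SQ.TL
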