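import Pool.Agent.H45.SQ.Targets1

namespace Pool.Agent.H35.SQ.O

open Finset Pool.Agent.H45.SQ
open scoped BigOperators ComplexConjugate

section basic

variable {G : Type} [Fintype G]

theorem cs (g h : G → ℂ) :
    ‖∑ y, conj (g y) * h y‖ ^ 2 ≤ (∑ y, ‖g y‖ ^ 2) * ∑ y, ‖h y‖ ^ 2 := by
  have h1 : ‖∑ y, conj (g y) * h y‖ ≤ ∑ y, ‖g y‖ * ‖h y‖ := by
    refine le_trans (norm_sum_le _ _) (le_of_eq (Finset.sum_congr rfl fun y _ => ?_))
    rw [norm_mul, RCLike.norm_conj]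
  calc ‖∑ y, conj (g y) * h y‖ ^ 2 ≤ (∑ y, ‖g y‖ * ‖h y‖) ^ 2 := by gcongr
    _ ≤ _ := Finset.sum_mul_sq_le_sq_mul_sq _ _ _

theorem adj (M : Matrix G G ℂ) (g h : G → ℂ) :
    ∑ y, conj (g y) * M.mulVec h y = ∑ y, conj (M.conjTranspose.mulVec g y) * h y := by
  have h1 : ∑ y, conj (g y) * M.mulVec h y = star g ⬝ᵥ M.mulVec h := rfl
  have h2 : ∑ y, conj (M.conjTranspose.mulVec g y) * h y = star (M.conjTranspose.mulVec g) ⬝ᵥ h := rfl
  rw [h1, h2, Matrix.dotProduct_mulVec, Matrix.star_mulVec, Matrix.conjTranspose_conjTranspose]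

theorem self (u : G → ℂ) : ∑ y, conj (u y) * u y = ((∑ y, ‖u y‖ ^ 2 : ℝ) : ℂ) := by
  push_cast
  refine Finset.sum_congr rfl fun y _ => ?_
  rw [mul_comm, RCLike.mul_conj]
  rfl

theorem norm_self (u : G → ℂ) : ‖∑ y, conj (u y) * u y‖ = ∑ y, ‖u y‖ ^ 2 := by
  rw [self, Complex.norm_real, Real.norm_of_nonneg (Finset.sum_nonneg fun _ _ => by positivity)]

theorem tri2 (a b : G → ℂ) (α β S : ℝ) (hα : 0 ≤ α) (hβ : 0 ≤ β) (hS : 0 ≤ S)
    (ha : ∑ y, ‖a y‖ ^ 2 ≤ α ^ 2 * S) (hb : ∑ y, ‖b y‖ ^ 2 ≤ β ^ 2 * S) :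
    ∑ y, ‖a y + b y‖ ^ 2 ≤ (α + β) ^ 2 * S := by
  have h1 : (∑ y, ‖a y‖ * ‖b y‖) ^ 2 ≤ (α * β * S) ^ 2 := by
    calc (∑ y, ‖a y‖ * ‖b y‖) ^ 2 ≤ (∑ y, ‖a y‖ ^ 2) * ∑ y, ‖b y‖ ^ 2 :=
          Finset.sum_mul_sq_le_sq_mul_sq _ _ _
      _ ≤ (α ^ 2 * S) * (β ^ 2 * S) := by
          apply mul_le_mul ha hb (Finset.sum_nonneg fun _ _ => by positivity) (by positivity)
      _ = _ := by ring
  have h2 : ∑ y, ‖a y‖ * ‖b y‖ ≤ α * β * S := abs_le_of_sq_le_sq' h1 (by positivity) |>.2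
  calc ∑ y, ‖a y + b y‖ ^ 2 ≤ ∑ y, (‖a y‖ ^ 2 + 2 * (‖a y‖ * ‖b y‖) + ‖b y‖ ^ 2) := by
        refine Finset.sum_le_sum fun y _ => ?_
        have := norm_add_le (a y) (b y)
        calc ‖a y + b y‖ ^ 2 ≤ (‖a y‖ + ‖b y‖) ^ 2 := by gcongr
          _ = _ := by ring
    _ = ∑ y, ‖a y‖ ^ 2 + 2 * ∑ y, ‖a y‖ * ‖b y‖ + ∑ y, ‖b y‖ ^ 2 := by
        rw [Finset.sum_add_distrib, Finset.sum_add_distrib, Finset.mul_sum]
    _ ≤ α ^ 2 * S + 2 * (α * β * S) + β ^ 2 * S := by linarith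
    _ = _ := by ring

theorem snn (g : G → ℂ) : 0 ≤ ∑ y, ‖g y‖ ^ 2 := Finset.sum_nonneg fun _ _ => by positivity

/-- from `A^2 ≤ B C A` -/
theorem cancel {A B : ℝ} (hA : 0 ≤ A) (hB : 0 ≤ B) (h : A ^ 2 ≤ B * A) : A ≤ B := by
  rcases eq_or_lt_of_le hA with h0 | h0
  · rw [← h0]; exact hB
  · nlinarith

theorem op_conj {M : Matrix G G ℂ} {c : ℝ} (h : OpLe M c) : OpLe M.conjTranspose c := by
  refine ⟨h.1, fun g => ?_⟩
  set u := M.conjTranspose.mulVec g with hu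
  have h1 := adj M g u
  rw [← hu] at h1
  have h2 := cs g (M.mulVec u)
  rw [h1, norm_self] at h2
  have h3 := h.2 u
  apply cancel (snn u) (mul_nonneg (by positivity) (snn g))
  calc (∑ y, ‖u y‖ ^ 2) ^ 2 ≤ _ := h2
    _ ≤ (∑ y, ‖g y‖ ^ 2) * (c ^ 2 * ∑ y, ‖u y‖ ^ 2) := mul_le_mul_of_nonneg_left h3 (snn g)
    _ = _ := by ring

theorem proj_self {M : Matrix G G ℂ} [DecidableEq G] (hM : Proj M) (g : G → ℂ) :
    ∑ y, conj (g y) * M.mulVec g y = ((∑ y, ‖M.mulVec g y‖ ^ 2 : ℝ) : ℂ) := by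
  rw [← self]
  have h1 := adj M g (M.mulVec g)
  rw [Matrix.mulVec_mulVec, hM.2] at h1
  rw [h1, hM.1]

end basic

section grp

variable {G : Type} [AddCommGroup G] [Fintype G]

theorem shift {β : Type} [AddCommMonoid β] (a : G) (f : G → β) : ∑ y, f (y + a) = ∑ y, f y :=
  Equiv.sum_comp (Equiv.addRight a) f

omit [Fintype G] in
theorem dbl [Module (ZMod 2) G] (x y : G) : x + y + y = x := by
  rw [add_assoc, ZModModule.add_self, add_zero]

theorem Rm_mulVec [Module (ZMod 2) G] (s t : G) (X : G → ℂ) (M : Matrix G G ℂ) (g : G → ℂ) (y : G) :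
    (Rm s t X M).mulVec g y = conj (X (y + s)) *
      conj (M.mulVec (fun z => conj (X (z + t) * g (z + s + t))) (y + s + t)) := by
  simp only [Matrix.mulVec, dotProduct, Rm, map_sum, Finset.mul_sum]
  rw [← shift (s + t)]
  refine Finset.sum_congr rfl fun z _ => ?_
  have e1 : z + (s + t) + s + t = z := by
    rw [← add_assoc z s t, add_right_comm (z + s) t s, dbl, dbl]
  have e2 : z + (s + t) + s = z + t := by
    rw [← add_assoc z s t, add_right_comm (z + s) t s, dbl]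
  rw [e1, e2, map_mul, Complex.conj_conj, add_assoc z s t]
  ring

end grp

end Pool.Agent.H35.SQ.O

open Pool.Agent.H45.SQ Pool.Agent.H35.SQ.O Finset in
open scoped BigOperators ComplexConjugate in
theorem Pool.Agent.H35.SQ.opt : T_OPT := by
  intro G _ _ _ _ M M' c c'
  refine ⟨?_, ?_, ?_, ?_, ?_, ?_, ?_, ?_, ?_, ?_, ?_⟩
  · intro h h'
    refine ⟨add_nonneg h.1 h'.1, fun g => ?_⟩
    rw [Matrix.add_mulVec]
    exact tri2 _ _ _ _ _ h.1 h'.1 (snn g) (h.2 g) (h'.2 g)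
  · intro h h'
    refine ⟨add_nonneg h.1 h'.1, fun g => ?_⟩
    rw [Matrix.sub_mulVec]
    have h3 := tri2 (M.mulVec g) (fun y => -(M'.mulVec g y)) _ _ _ h.1 h'.1 (snn g) (h.2 g)
      (by simpa using h'.2 g)
    simpa [sub_eq_add_neg] using h3
  · intro h h'
    refine ⟨mul_nonneg h.1 h'.1, fun g => ?_⟩
    rw [← Matrix.mulVec_mulVec]
    calc _ ≤ _ := h.2 _
      _ ≤ c ^ 2 * (c' ^ 2 * ∑ y, ‖g y‖ ^ 2) := mul_le_mul_of_nonneg_left (h'.2 g) (by positivity)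
      _ = _ := by ring
  · intro h hc
    refine ⟨h.1.trans hc, fun g => (h.2 g).trans ?_⟩
    have := h.1
    have := snn g
    gcongr
  · intro h
    refine ⟨zero_le_one, fun g => ?_⟩
    have h1 := proj_self h g
    have h2 := cs g (M.mulVec g)
    rw [h1, Complex.norm_real, Real.norm_of_nonneg (snn _)] at h2
    rw [one_pow, one_mul]
    exact cancel (snn _) (snn _) h2
  · intro hc h
    refine ⟨hc, fun g => ?_⟩
    have hN : (0 : ℝ) < Fintype.card G := by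
      have : Nonempty G := ⟨0⟩
      exact_mod_cast Fintype.card_pos
    have h1 : ∀ y, ‖M.mulVec g y‖ ^ 2 ≤ (c / Fintype.card G) ^ 2 * ((Fintype.card G : ℝ) * ∑ y, ‖g y‖ ^ 2) := by
      intro y
      have h2 : ‖M.mulVec g y‖ ≤ (c / Fintype.card G) * ∑ y', ‖g y'‖ := by
        rw [Finset.mul_sum]
        refine le_trans (norm_sum_le _ _) (Finset.sum_le_sum fun y' _ => ?_)
        rw [norm_mul]
        exact mul_le_mul_of_nonneg_right (h y y') (norm_nonneg _)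
      have h3 : (∑ y', ‖g y'‖) ^ 2 ≤ (Fintype.card G : ℝ) * ∑ y, ‖g y‖ ^ 2 := by
        have := sq_sum_le_card_mul_sum_sq (s := (Finset.univ : Finset G)) (f := fun y => ‖g y‖)
        simpa using this
      calc ‖M.mulVec g y‖ ^ 2 ≤ ((c / Fintype.card G) * ∑ y', ‖g y'‖) ^ 2 := by gcongr
        _ = (c / Fintype.card G) ^ 2 * (∑ y', ‖g y'‖) ^ 2 := by ring
        _ ≤ _ := by gcongr
    refine le_trans (Finset.sum_le_sum fun y _ => h1 y) ?_
    rw [Finset.sum_const, Finset.card_univ, nsmul_eq_mul]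
    apply le_of_eq
    field_simp
  · exact op_conj
  · intro g h
    have h1 := cs g (M.mulVec g)
    have h2 := h.2 g
    have h3 : |qf M g| ≤ ‖∑ y, conj (g y) * M.mulVec g y‖ := Complex.abs_re_le_norm _
    refine h3.trans ?_
    refine (abs_le_of_sq_le_sq' (b := c * ∑ y, ‖g y‖ ^ 2) ?_ (mul_nonneg h.1 (snn g))).2
    calc _ ≤ _ := h1
      _ ≤ (∑ y, ‖g y‖ ^ 2) * (c ^ 2 * ∑ y, ‖g y‖ ^ 2) := mul_le_mul_of_nonneg_left h2 (snn g)
      _ = _ := by ring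
  · intro X b s t hX h
    have hb : 0 ≤ b := (norm_nonneg (X 0)).trans (hX 0)
    refine ⟨mul_nonneg (by positivity) h.1, fun g => ?_⟩
    set k : G → ℂ := fun z => conj (X (z + t) * g (z + s + t)) with hk
    have h1 : ∑ y, ‖(Rm s t X M).mulVec g y‖ ^ 2 ≤ b ^ 2 * ∑ y, ‖M.mulVec k y‖ ^ 2 := by
      rw [Finset.mul_sum, ← shift (s + t) (fun y => b ^ 2 * ‖M.mulVec k y‖ ^ 2)]
      refine Finset.sum_le_sum fun y _ => ?_
      rw [Rm_mulVec, norm_mul, mul_pow, RCLike.norm_conj, RCLike.norm_conj, ← add_assoc y s t]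
      have := hX (y + s)
      gcongr
    have h2 : ∑ y, ‖k y‖ ^ 2 ≤ b ^ 2 * ∑ y, ‖g y‖ ^ 2 := by
      rw [Finset.mul_sum, ← shift (s + t) (fun y => b ^ 2 * ‖g y‖ ^ 2)]
      refine Finset.sum_le_sum fun y _ => ?_
      rw [hk]
      simp only
      rw [RCLike.norm_conj, norm_mul, mul_pow, ← add_assoc y s t]
      have := hX (y + t)
      gcongr
    calc _ ≤ _ := h1
      _ ≤ b ^ 2 * (c ^ 2 * ∑ y, ‖k y‖ ^ 2) := mul_le_mul_of_nonneg_left (h.2 k) (by positivity)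
      _ ≤ b ^ 2 * (c ^ 2 * (b ^ 2 * ∑ y, ‖g y‖ ^ 2)) := by gcongr
      _ = _ := by ring
  · intro X s t h
    ext y y'
    rw [Matrix.conjTranspose_apply]
    simp only [Rm]
    have h1 := h.apply (y + s + t) (y' + s + t)
    rw [← h1]
    simp only [star_mul', RCLike.star_def, Complex.conj_conj]
    ring
  · intro X s t h g
    rw [qf]
    have h1 : ∑ y, conj (g y) * (Rm s t X M).mulVec g y =
        conj (∑ y, conj ((fun z => conj (X (z + t) * g (z + s + t))) y) *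
          M.mulVec (fun z => conj (X (z + t) * g (z + s + t))) y) := by
      rw [map_sum, ← shift (s + t) (fun y => conj (conj ((fun z => conj (X (z + t) * g (z + s + t))) y) *
          M.mulVec (fun z => conj (X (z + t) * g (z + s + t))) y))]
      refine Finset.sum_congr rfl fun y _ => ?_
      rw [Rm_mulVec]
      have e1 : y + (s + t) + s + t = y := by
        rw [← add_assoc y s t, add_right_comm (y + s) t s, dbl, dbl]
      have e2 : y + (s + t) + t = y + s := by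
        rw [← add_assoc y s t, dbl]
      simp only [e1, e2, map_mul, Complex.conj_conj, add_assoc y s t]
      ring
    rw [h1, proj_self h, Complex.conj_ofReal, Complex.ofReal_re]
    exact snn _
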