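import Pool.Agent.H35.SQ.OPT

open Pool.Agent.H45.SQ Pool.Agent.H35.SQ.O Finset in
open scoped BigOperators ComplexConjugate in
theorem Pool.Agent.H35.SQ.thb : T_THB := by
  intro G _ _ _ _ s t DA DB DC e X g PA PB PC hA hB hC
  have hN : ((Fintype.card G : ℕ) : ℂ) ≠ 0 := by
    have : Nonempty G := ⟨0⟩
    exact_mod_cast Fintype.card_ne_zero
  have hN' : (0 : ℝ) < Fintype.card G := by
    have : Nonempty G := ⟨0⟩
    exact_mod_cast Fintype.card_pos
  set N : ℂ := ((Fintype.card G : ℕ) : ℂ) with hNdef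
  have htri : ∀ a b c : G → ℂ, ((‖Tri s t a b c‖ ^ 2 : ℝ) : ℂ) =
      N⁻¹ * N⁻¹ * ((∑ y, a y * b (y + s) * c (y + s + t)) *
        conj (∑ y, a y * b (y + s) * c (y + s + t))) := by
    intro a b c
    rw [Tri, Fintype.expect_eq_sum_div_card, norm_div, div_pow, RCLike.mul_conj]
    rw [Complex.norm_natCast]
    push_cast
    rw [hNdef]
    field_simp
    simp
  refine ⟨?_, ?_, ?_⟩
  · push_cast
    have h1 : ∀ i j k, ((‖Tri s t (e i) (X j) (g k)‖ : ℂ)) ^ 2 = ∑ y, ∑ y', N⁻¹ * N⁻¹ *
        ((e i y * X j (y + s) * g k (y + s + t)) *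
          conj (e i y' * X j (y' + s) * g k (y' + s + t))) := by
      intro i j k
      have := htri (e i) (X j) (g k)
      push_cast at this
      rw [this, map_sum, Finset.sum_mul_sum, Finset.mul_sum]
      refine Finset.sum_congr rfl fun y _ => ?_
      rw [Finset.mul_sum]
    have h2 : ∑ i, ∑ j, ∑ k, ((‖Tri s t (e i) (X j) (g k)‖ : ℂ)) ^ 2 =
        ∑ p : Fin DA × Fin DB × Fin DC, ∑ q : G × G, N⁻¹ * N⁻¹ *
        ((e p.1 q.1 * X p.2.1 (q.1 + s) * g p.2.2 (q.1 + s + t)) *
          conj (e p.1 q.2 * X p.2.1 (q.2 + s) * g p.2.2 (q.2 + s + t))) := by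
      simp only [Fintype.sum_prod_type, h1]
    rw [h2, Finset.sum_comm, Fintype.sum_prod_type, Th, Finset.mul_sum]
    refine Finset.sum_congr rfl fun y _ => ?_
    rw [Finset.mul_sum]
    refine Finset.sum_congr rfl fun y' _ => ?_
    rw [hA, hB, hC]
    simp only [Fintype.sum_prod_type]
    have h3 : ∀ (a : Fin DA → ℂ) (b : Fin DB → ℂ) (c : Fin DC → ℂ),
        (∑ i, a i) * (∑ j, b j) * (∑ k, c k) = ∑ i, ∑ j, ∑ k, a i * b j * c k := by
      intro a b c
      rw [Finset.sum_mul_sum, Finset.sum_mul]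
      refine Finset.sum_congr rfl fun i _ => ?_
      rw [Finset.sum_mul]
      refine Finset.sum_congr rfl fun j _ => ?_
      rw [Finset.mul_sum]
    have h4 : N * (N⁻¹ * (∑ i, e i y * conj (e i y')) * (N⁻¹ * ∑ i, X i (y + s) * conj (X i (y' + s))) *
        (N⁻¹ * ∑ i, g i (y + s + t) * conj (g i (y' + s + t)))) =
        N⁻¹ * N⁻¹ * ((∑ i, e i y * conj (e i y')) * (∑ i, X i (y + s) * conj (X i (y' + s))) *
        (∑ i, g i (y + s + t) * conj (g i (y' + s + t)))) := by
      field_simp
    rw [h4, h3, Finset.mul_sum]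
    refine Finset.sum_congr rfl fun i _ => ?_
    rw [Finset.mul_sum]
    refine Finset.sum_congr rfl fun j _ => ?_
    rw [Finset.mul_sum]
    refine Finset.sum_congr rfl fun k _ => ?_
    simp only [map_mul]
    ring
  · intro M ε b hM hX hg
    have h1 : Th s t M PB PC = ∑ j, ∑ k, N⁻¹ * ∑ y, conj (conj (X j (y + s) * g k (y + s + t))) *
        M.mulVec (fun y' => conj (X j (y' + s) * g k (y' + s + t))) y := by
      have h2 : ∑ j, ∑ k, N⁻¹ * ∑ y, conj (conj (X j (y + s) * g k (y + s + t))) *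
        M.mulVec (fun y' => conj (X j (y' + s) * g k (y' + s + t))) y =
        ∑ p : Fin DB × Fin DC, ∑ q : G × G, N⁻¹ * (X p.1 (q.1 + s) * g p.2 (q.1 + s + t) *
          (M q.1 q.2 * conj (X p.1 (q.2 + s) * g p.2 (q.2 + s + t)))) := by
        simp only [Fintype.sum_prod_type]
        refine Finset.sum_congr rfl fun j _ => Finset.sum_congr rfl fun k _ => ?_
        rw [Finset.mul_sum]
        refine Finset.sum_congr rfl fun y _ => ?_
        rw [Matrix.mulVec, dotProduct, Complex.conj_conj, Finset.mul_sum, Finset.mul_sum]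
      rw [h2, Finset.sum_comm, Fintype.sum_prod_type, Th, Finset.mul_sum]
      refine Finset.sum_congr rfl fun y _ => ?_
      rw [Finset.mul_sum]
      refine Finset.sum_congr rfl fun y' _ => ?_
      rw [hB, hC]
      simp only [Fintype.sum_prod_type]
      have h4 : N * (M y y' * (N⁻¹ * ∑ i, X i (y + s) * conj (X i (y' + s))) *
        (N⁻¹ * ∑ i, g i (y + s + t) * conj (g i (y' + s + t)))) =
        N⁻¹ * M y y' * ((∑ i, X i (y + s) * conj (X i (y' + s))) *
        (∑ i, g i (y + s + t) * conj (g i (y' + s + t)))) := by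
        field_simp
      rw [h4, Finset.sum_mul_sum, Finset.mul_sum]
      refine Finset.sum_congr rfl fun j _ => ?_
      rw [Finset.mul_sum]
      refine Finset.sum_congr rfl fun k _ => ?_
      simp only [map_mul]
      ring
    rw [h1]
    have h5 : ∀ j k, ‖N⁻¹ * ∑ y, conj (conj (X j (y + s) * g k (y + s + t))) *
        M.mulVec (fun y' => conj (X j (y' + s) * g k (y' + s + t))) y‖ ≤ ε * b ^ 2 := by
      intro j k
      have hb : 0 ≤ b := (norm_nonneg _).trans (hX j 0)
      set w : G → ℂ := fun y => conj (X j (y + s) * g k (y + s + t)) with hw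
      have h6 : ‖∑ y, conj (w y) * M.mulVec w y‖ ≤ ε * ∑ y, ‖w y‖ ^ 2 := by
        have h7 := cs w (M.mulVec w)
        refine (abs_le_of_sq_le_sq' (b := ε * ∑ y, ‖w y‖ ^ 2) ?_ (mul_nonneg hM.1 (snn w))).2
        calc _ ≤ _ := h7
          _ ≤ (∑ y, ‖w y‖ ^ 2) * (ε ^ 2 * ∑ y, ‖w y‖ ^ 2) :=
            mul_le_mul_of_nonneg_left (hM.2 w) (snn w)
          _ = _ := by ring
      have h8 : ∑ y, ‖w y‖ ^ 2 ≤ b ^ 2 * Fintype.card G := by
        have h9 := hg k
        rw [Fintype.expect_eq_sum_div_card, div_le_one hN'] at h9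
        calc ∑ y, ‖w y‖ ^ 2 ≤ ∑ y, b ^ 2 * ‖g k (y + (s + t))‖ ^ 2 := by
              refine Finset.sum_le_sum fun y _ => ?_
              rw [hw]
              simp only
              rw [RCLike.norm_conj, norm_mul, mul_pow, ← add_assoc y s t]
              have := hX j (y + s)
              gcongr
          _ = b ^ 2 * ∑ y, ‖g k y‖ ^ 2 := by
              rw [← Finset.mul_sum, shift (s + t) (fun y => ‖g k y‖ ^ 2)]
          _ ≤ _ := by gcongr
      rw [norm_mul, norm_inv, hNdef, Complex.norm_natCast]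
      calc ((Fintype.card G : ℝ))⁻¹ * ‖∑ y, conj (w y) * M.mulVec w y‖ ≤
          ((Fintype.card G : ℝ))⁻¹ * (ε * (b ^ 2 * Fintype.card G)) := by
            have := hM.1
            gcongr
            exact h6.trans (by gcongr)
        _ = _ := by field_simp
    calc _ ≤ ∑ j : Fin DB, ∑ k : Fin DC, ε * b ^ 2 :=
          (norm_sum_le _ _).trans (Finset.sum_le_sum fun j _ =>
            (norm_sum_le _ _).trans (Finset.sum_le_sum fun k _ => h5 j k))
      _ = _ := by simp; ring
  · intro x v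
    have h1 : ∑ y, conj (v y) * (Rm s t x PC).mulVec v y =
        (((Fintype.card G : ℝ) * ∑ k, ‖Tri s t v x (g k)‖ ^ 2 : ℝ) : ℂ) := by
      push_cast
      have h2 : ∀ k, ((‖Tri s t v x (g k)‖ : ℂ)) ^ 2 = ∑ y, ∑ y', N⁻¹ * N⁻¹ *
          (conj (v y * x (y + s) * g k (y + s + t)) * (v y' * x (y' + s) * g k (y' + s + t))) := by
        intro k
        have := htri v x (g k)
        push_cast at this
        rw [this, mul_comm (∑ y, _) (conj _), map_sum, Finset.sum_mul_sum, Finset.mul_sum]
        refine Finset.sum_congr rfl fun y _ => ?_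
        rw [Finset.mul_sum]
      simp only [h2]
      rw [Finset.sum_comm, Finset.mul_sum]
      refine Finset.sum_congr rfl fun y _ => ?_
      rw [Finset.sum_comm, Finset.mul_sum, Matrix.mulVec, dotProduct, Finset.mul_sum]
      refine Finset.sum_congr rfl fun y' _ => ?_
      rw [Rm, hC, map_mul, map_sum, map_inv₀, Complex.conj_natCast, ← hNdef]
      have h4 : conj (v y) * (conj (x (y + s)) * x (y' + s) *
          (N⁻¹ * ∑ k, conj (g k (y + s + t) * conj (g k (y' + s + t)))) * v y') =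
          N⁻¹ * (conj (v y) * conj (x (y + s)) * x (y' + s) * v y') *
            ∑ k, conj (g k (y + s + t) * conj (g k (y' + s + t))) := by ring
      rw [h4, Finset.mul_sum, Finset.mul_sum]
      refine Finset.sum_congr rfl fun k _ => ?_
      simp only [map_mul, Complex.conj_conj]
      field_simp
    rw [qf, h1, Complex.ofReal_re]
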