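import Pool.Agent.H35.SQ.OPT

namespace Pool.Agent.H35.SQ.W

open Finset Pool.Agent.H45.SQ Pool.Agent.H35.SQ.O
open scoped BigOperators ComplexConjugate

variable {G : Type} [AddCommGroup G] [Fintype G]

theorem twist_mulVec [Module (ZMod 2) G] (s : G) (M : Matrix G G ℂ) (g : G → ℂ) (y : G) :
    (twist s M).mulVec g y = conj (M.mulVec (fun z => conj (g (z + s))) (y + s)) := by
  simp only [Matrix.mulVec, dotProduct, twist, map_sum]
  rw [← shift s]
  refine Finset.sum_congr rfl fun z _ => ?_
  rw [dbl, map_mul, Complex.conj_conj]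

theorem twist_mul [DecidableEq G] (s : G) (M P : Matrix G G ℂ) :
    twist s (M * P) = twist s M * twist s P := by
  ext y y'
  simp only [twist, Matrix.mul_apply, map_sum, map_mul]
  exact (shift s (fun z => conj (M (y + s) z) * conj (P z (y' + s)))).symm

omit [Fintype G] in
theorem twist_twist [Module (ZMod 2) G] (s : G) (P : Matrix G G ℂ) : twist s (twist s P) = P := by
  ext y y'
  simp only [twist, dbl, Complex.conj_conj]

theorem twist_op [Module (ZMod 2) G] (s : G) (M : Matrix G G ℂ) (c : ℝ) (h : OpLe M c) :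
    OpLe (twist s M) c := by
  refine ⟨h.1, fun g => ?_⟩
  have h1 := h.2 (fun z => conj (g (z + s)))
  have h2 : ∑ y, ‖(twist s M).mulVec g y‖ ^ 2 = ∑ y, ‖M.mulVec (fun z => conj (g (z + s))) y‖ ^ 2 := by
    rw [← shift s (fun y => ‖M.mulVec (fun z => conj (g (z + s))) y‖ ^ 2)]
    refine Finset.sum_congr rfl fun y _ => ?_
    rw [twist_mulVec, RCLike.norm_conj]
  have h3 : ∑ y, ‖conj (g (y + s))‖ ^ 2 = ∑ y, ‖g y‖ ^ 2 := by
    rw [← shift s (fun y => ‖g y‖ ^ 2)]
    refine Finset.sum_congr rfl fun y _ => ?_
    rw [RCLike.norm_conj]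
  rw [h2, ← h3]
  exact h1

theorem twist_gap [DecidableEq G] [Module (ZMod 2) G] (s : G) (M P : Matrix G G ℂ) (D : ℕ)
    (h : Gap M P D) : Gap (twist s M) (twist s P) D where
  proj := by
    refine ⟨?_, ?_⟩
    · ext y y'
      rw [Matrix.conjTranspose_apply]
      simp only [twist]
      rw [RCLike.star_def, h.proj.1.apply (y + s) (y' + s) |>.symm]
      simp
    · rw [← twist_mul, h.proj.2]
  rank := by
    have h1 : (twist s P).trace = conj (P.trace) := by
      simp only [Matrix.trace, Matrix.diag, twist, map_sum]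
      exact shift s (fun z => conj (P z z))
    rw [h1, h.rank]
    simp
  comm := by rw [← twist_mul, ← twist_mul, h.comm]
  close := by
    have h1 : twist s M - twist s P = twist s (M - P) := by
      ext y y'
      simp [twist]
    rw [h1]
    exact twist_op s _ _ h.close

end Pool.Agent.H35.SQ.W

open Pool.Agent.H45.SQ Pool.Agent.H35.SQ.O Pool.Agent.H35.SQ.W Finset in
open scoped BigOperators ComplexConjugate in
theorem Pool.Agent.H35.SQ.twi : T_TWI := by
  intro G _ _ _ _ s t M P A B C
  refine ⟨fun D h => twist_gap s M P D h, twist_twist s P, ?_, ?_, ?_⟩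
  · intro v hv
    ext y
    rw [twist_mulVec]
    congr 1
    have h1 : (fun z => conj (conj (v (z + s + s)))) = v := by
      ext z; rw [dbl, Complex.conj_conj]
    rw [h1, hv]
  · simp only [Th, map_mul, map_sum, Complex.conj_natCast]
    congr 1
    rw [← shift (s + t) (fun y => ∑ y', conj (A y y') * conj (B (y + s) (y' + s)) *
      conj (C (y + s + t) (y' + s + t)))]
    refine Finset.sum_congr rfl fun y _ => ?_
    rw [← shift (s + t) (fun y' => conj (A (y + (s + t)) y') *
      conj (B (y + (s + t) + s) (y' + s)) * conj (C (y + (s + t) + s + t) (y' + s + t)))]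
    refine Finset.sum_congr rfl fun y' _ => ?_
    have e1 : ∀ y : G, y + (s + t) + s = y + t := by
      intro y; rw [← add_assoc y s t, add_right_comm (y + s) t s, dbl]
    have e2 : ∀ y : G, y + t + s = y + (s + t) := by
      intro y; rw [add_assoc, add_comm t s]
    simp only [twist, e1, e2, dbl]
    ring
  · simp only [Th]
    congr 1
    rw [← shift s (fun y => ∑ y', B y y' * C (y + t) (y' + t) * A (y + t + (s + t)) (y' + t + (s + t)))]
    refine Finset.sum_congr rfl fun y _ => ?_
    rw [← shift s (fun y' => B (y + s) y' * C (y + s + t) (y' + t) *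
      A (y + s + t + (s + t)) (y' + t + (s + t)))]
    refine Finset.sum_congr rfl fun y' _ => ?_
    have e1 : ∀ y : G, y + s + t + (s + t) = y := by
      intro y; rw [add_assoc (y) s t, dbl]
    rw [e1, e1]
    ring

open Pool.Agent.H45.SQ Pool.Agent.H35.SQ.O Pool.Agent.H35.SQ.W Finset in
open scoped BigOperators ComplexConjugate in
theorem Pool.Agent.H35.SQ.sharp_t : T_SHARP := by
  intro G _ _ _ _ f L
  have hmat : ∀ (L : Fam G) s, mat (sharp L) s = twist s (mat L s) := by
    intro L s
    ext y y'
    simp only [mat, sharp, twist, map_mul, map_inv₀, Complex.conj_natCast, dbl]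
    have e1 : y + s + (y' + s) = y + y' := by
      rw [← add_assoc (y + s) y' s, add_right_comm y s y', dbl]
    rw [e1]
  have hrho : sharp (rho f) = rho f := by
    ext o u v
    simp only [sharp, rho]
    rw [map_expect (starRingEnd ℂ)]
    refine Finset.expect_congr rfl fun x _ => ?_
    simp only [map_mul, Complex.conj_conj]
    ring
  refine ⟨?_, ?_, hmat L, hrho, ?_, ?_⟩
  · rintro C ⟨Ω, iΩ, c, a, b, ha, hb, hc, hL⟩
    refine ⟨Ω, iΩ, fun w => conj (c w), fun w o u => conj (b w o u), fun w o u => conj (a w o u),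
      ?_, ?_, ?_, ?_⟩
    · intro w o u; rw [RCLike.norm_conj]; exact hb w o u
    · intro w o u; rw [RCLike.norm_conj]; exact ha w o u
    · simpa only [RCLike.norm_conj] using hc
    · intro o u v
      simp only [sharp, hL, map_sum, map_mul]
      refine Finset.sum_congr rfl fun w _ => ?_
      ring
  · intro h o u v
    simp only [sharp]
    rw [← h o v u, Complex.conj_conj]
  · intro Λ h s g
    rw [hmat]
    have h1 := h s (fun z => conj (g (z + s)))
    have h2 : ∑ y, ‖(twist s (mat L s)).mulVec g y‖ ^ 2 =
        ∑ y, ‖(mat L s).mulVec (fun z => conj (g (z + s))) y‖ ^ 2 := by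
      rw [← shift s (fun y => ‖(mat L s).mulVec (fun z => conj (g (z + s))) y‖ ^ 2)]
      refine Finset.sum_congr rfl fun y _ => ?_
      rw [twist_mulVec, RCLike.norm_conj]
    rw [h2]
    refine h1.trans (le_of_eq ?_)
    congr 1
    have h3 : qf (mat (rho f) s) (fun z => conj (g (z + s))) =
        qf (twist s (mat (rho f) s)) (fun z => conj (g (z + s))) := by
      rw [← hmat, hrho]
    rw [h3, qf, qf]
    have h4 : ∑ y, conj (conj (g (y + s))) * (twist s (mat (rho f) s)).mulVec (fun z => conj (g (z + s))) y
        = conj (∑ y, conj (g y) * (mat (rho f) s).mulVec g y) := by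
      rw [map_sum, ← shift s (fun y => conj (conj (g y) * (mat (rho f) s).mulVec g y))]
      refine Finset.sum_congr rfl fun y _ => ?_
      rw [twist_mulVec, map_mul]
      have h5 : (fun z => conj (conj (g (z + s + s)))) = g := by
        ext z; rw [dbl, Complex.conj_conj]
      rw [h5]
    rw [h4, Complex.conj_re]
  · ext o u v
    simp only [sharp, Complex.conj_conj]
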